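import Pool.Agent.Helper97.TI.Defs

/-!
Module HOM of MP_17e24e_ag.
-/

set_option autoImplicit false
open MvPolynomial

namespace TI

section P5
variable {κ : ℕ}

attribute [local instance] MvPolynomial.gradedAlgebra in
/-- HOM -/
theorem minimal_hom (S : Finset (RR κ)) (hS : ∀ p ∈ S, ∃ n : ℕ, p.IsHomogeneous n)
    (𝔭 : Ideal (RR κ)) (hp : 𝔭 ∈ (Ideal.span (S : Set (RR κ))).radical.minimalPrimes) :
    ∀ p ∈ 𝔭, ∀ i, homogeneousComponent i p ∈ 𝔭 := by
  have hspan : (Ideal.span (S : Set (RR κ))).IsHomogeneous (homogeneousSubmodule (Fin κ) ℂ) := by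
    refine Ideal.homogeneous_span _ _ ?_
    intro p hp
    obtain ⟨n, hn⟩ := hS p hp
    exact ⟨n, (mem_homogeneousSubmodule n p).2 hn⟩
  have hrad := hspan.radical
  have hprime : 𝔭.IsPrime := hp.1.1
  have hcore := hprime.homogeneousCore (𝒜 := homogeneousSubmodule (Fin κ) ℂ)
  have hle : (Ideal.span (S : Set (RR κ))).radical ≤
      (𝔭.homogeneousCore (homogeneousSubmodule (Fin κ) ℂ)).toIdeal := by
    rw [← hrad.toIdeal_homogeneousCore_eq_self]
    exact Ideal.homogeneousCore_mono _ hp.1.2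
  have h2 : 𝔭 ≤ (𝔭.homogeneousCore (homogeneousSubmodule (Fin κ) ℂ)).toIdeal :=
    hp.2 ⟨hcore, hle⟩ (Ideal.toIdeal_homogeneousCore_le _ _)
  have h3 : (𝔭.homogeneousCore (homogeneousSubmodule (Fin κ) ℂ)).toIdeal = 𝔭 :=
    le_antisymm (Ideal.toIdeal_homogeneousCore_le _ _) h2
  have h4 : 𝔭.IsHomogeneous (homogeneousSubmodule (Fin κ) ℂ) := by
    rw [← h3]
    exact (𝔭.homogeneousCore (homogeneousSubmodule (Fin κ) ℂ)).isHomogeneous
  intro p hp' i
  have h5 := h4 i hp'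
  rwa [← decomposition.decompose'_apply]

/-- UN -/
theorem union_min (S : Finset (RR κ)) (v : Fin κ → ℂ) :
    (∀ p ∈ S, eval v p = 0) ↔
      ∃ 𝔭 ∈ (Ideal.span (S : Set (RR κ))).radical.minimalPrimes, ∀ p ∈ 𝔭, eval v p = 0 := by
  constructor
  · intro h
    have hk : (RingHom.ker (eval v)).IsPrime := RingHom.ker_isPrime _
    have h1 : Ideal.span (S : Set (RR κ)) ≤ RingHom.ker (eval v) := by
      rw [Ideal.span_le]
      intro p hp
      exact h p hp
    have h2 : (Ideal.span (S : Set (RR κ))).radical ≤ RingHom.ker (eval v) :=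
      (Ideal.IsPrime.radical_le_iff hk).2 h1
    obtain ⟨𝔭, h3, h4⟩ := Ideal.exists_minimalPrimes_le h2
    exact ⟨𝔭, h3, fun p hp => h4 hp⟩
  · rintro ⟨𝔭, h1, h2⟩ p hp
    exact h2 p (h1.1.2 (Ideal.le_radical (Ideal.subset_span hp)))

end P5

end TI
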