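import Pool.Agent.Helper97.TI.Defs

/-!
Module NUL of MP_17e24e_ag.
-/

set_option autoImplicit false
open MvPolynomial

namespace TI

section NUL
variable {κ : ℕ}

/-- NUL -/
theorem mm_pow_le {d : ℕ} {F : Fin κ → RR κ} (hF : NonDeg d F) :
    ∃ L : ℕ, mm κ ^ L ≤ Ideal.span (Set.range F) := by
  refine Ideal.exists_pow_le_of_le_radical_of_fg ?_ (IsNoetherian.noetherian (mm κ))
  rw [← vanishingIdeal_zeroLocus_eq_radical (K := ℂ), mm, Ideal.span_le]
  rintro _ ⟨i, rfl⟩
  rw [SetLike.mem_coe, mem_vanishingIdeal_iff]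
  intro v hv
  have h0 : v = 0 := by
    refine hF.nd v fun j => ?_
    have := hv (F j) (Ideal.subset_span ⟨j, rfl⟩)
    simpa [MvPolynomial.aeval_eq_eval] using this
  rw [h0]
  simp

end NUL

end TI
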