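import Pool.Agent.Helper97.TI.Defs

/-!
Module ZS of MP_17e24e_ag.
-/

set_option autoImplicit false
open MvPolynomial

namespace TI

section P5
variable {κ : ℕ}

/-- ZS -/
theorem radical_eq {F : Fin κ → RR κ} (S : Finset (RR κ))
    (h1 : ∀ v : Fin κ → ℂ, (∀ p ∈ S, eval v p = 0) ↔
      (∀ p ∈ S, eval (fun i => eval v (F i)) p = 0)) :
    (Ideal.map (phi F) (Ideal.span (S : Set (RR κ))).radical).radical =
      (Ideal.span (S : Set (RR κ))).radical := by
  have hmem : ∀ (v : Fin κ → ℂ), v ∈ zeroLocus ℂ (Ideal.span (S : Set (RR κ))) ↔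
      ∀ p ∈ S, eval v p = 0 := by
    intro v
    rw [zeroLocus_span]
    simp [MvPolynomial.aeval_eq_eval]
  have hrad : ∀ (I : Ideal (RR κ)) (v : Fin κ → ℂ), v ∈ zeroLocus ℂ I.radical ↔
      v ∈ zeroLocus ℂ I := by
    intro I v
    constructor
    · intro h
      exact zeroLocus_anti_mono Ideal.le_radical h
    · rintro h p ⟨n, hn⟩
      have := h _ hn
      rw [map_pow] at this
      by_contra h'
      exact pow_ne_zero _ h' this
  have hev : ∀ (v : Fin κ → ℂ) (p : RR κ),
      aeval v (phi F p) = aeval (fun i => eval v (F i)) p := by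
    intro v p
    rw [phi, comp_aeval_apply]
    rfl
  rw [← vanishingIdeal_zeroLocus_eq_radical (K := ℂ),
    ← vanishingIdeal_zeroLocus_eq_radical (K := ℂ) (Ideal.span (S : Set (RR κ)))]
  congr 1
  ext v
  rw [hmem, h1, ← hmem, ← hrad (Ideal.span (S : Set (RR κ))), vanishingIdeal_zeroLocus_eq_radical]
  constructor
  · intro h p hp
    rw [← hev]
    exact h _ (Ideal.mem_map_of_mem _ hp)
  · intro h
    have h2 : Ideal.map (phi F) (Ideal.span (S : Set (RR κ))).radical ≤
        RingHom.ker (aeval v : RR κ →ₐ[ℂ] ℂ) := by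
      rw [Ideal.map_le_iff_le_comap]
      intro p hp
      rw [Ideal.mem_comap, RingHom.mem_ker, hev]
      exact h p hp
    intro p hp
    exact h2 hp

end P5

end TI
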